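import Pool.Agent.LAT.StmtsC

set_option autoImplicit false

/-!
# Row DSR of squad LAT (`MP_0fc649_lc`, part 2): the certificate of the distance
-/

namespace Pool.Agent.LAT.H25

open Pool.Agent.LAT
open Matrix

theorem GG_apply {m : ℕ} (B : Matrix (Fin m) (Fin m) ℤ) (i k : Fin m) :
    GG B i k = ∑ j, B i j * B k j + if i = k then (if B i i = 0 then 1 else 0) else 0 := by
  unfold GG EE
  rw [Matrix.add_apply, Matrix.mul_apply, Matrix.diagonal_apply]
  rfl

theorem LB_self {m : ℕ} (G : Matrix (Fin m) (Fin m) ℤ) : LB G m = G := by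
  ext i j
  simp [LB]

theorem sq_eq {m : ℕ} (p : Fin m → ℝ) : sq p = ∑ j, p j * p j := rfl

/-- Row DSR. -/
theorem dsr (ggp : GgpStmt) : DsrStmt := by
  intro m B g hB
  have hdet : 1 ≤ (GG B).det := by
    have := ggp m B hB m le_rfl
    rwa [LB_self] at this
  have hdet0 : (GG B).det ≠ 0 := by omega
  refine ⟨⟨-((B *ᵥ g) ᵥ* adjugate (GG B)), ?_⟩, ?_, ?_⟩
  · rw [Matrix.neg_vecMul, Matrix.vecMul_vecMul, Matrix.adjugate_mul, Matrix.vecMul_smul,
      Matrix.vecMul_one, neg_smul]
  · intro y y' h h'
    have h1 : (y - y') ᵥ* GG B = 0 := by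
      rw [Matrix.sub_vecMul, h, h', sub_self]
    have h2 : ((y - y') ᵥ* GG B) ᵥ* adjugate (GG B) = 0 := by
      rw [h1, Matrix.zero_vecMul]
    rw [Matrix.vecMul_vecMul, Matrix.mul_adjugate, Matrix.vecMul_smul, Matrix.vecMul_one] at h2
    rcases smul_eq_zero.mp h2 with h3 | h3
    · exact absurd h3 hdet0
    · exact sub_eq_zero.mp h3
  · intro y hy
    obtain ⟨δ, hδ⟩ : ∃ δ : ℝ, δ = ((GG B).det : ℝ) := ⟨_, rfl⟩
    have hδ0 : δ ≠ 0 := by
      rw [hδ]
      exact_mod_cast hdet0
    -- the equation over the reals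
    have heq : ∀ k, ∑ i, (y i : ℝ) * (GG B i k : ℝ) = -δ * ∑ j, (B k j : ℝ) * (g j : ℝ) := by
      intro k
      have h1 := congrFun hy k
      have h2 : (y ᵥ* GG B) k = ∑ i, y i * GG B i k := rfl
      have h3 : (-(GG B).det • (B *ᵥ g)) k = -(GG B).det * ∑ j, B k j * g j := rfl
      rw [h2, h3] at h1
      rw [hδ]
      exact_mod_cast h1
    -- the projection
    obtain ⟨h, hh⟩ : ∃ h : Fin m → ℝ, ∀ k, δ * h k = -(y k : ℝ) :=
      ⟨fun k => -(y k : ℝ) / δ, fun k => by field_simp⟩
    obtain ⟨p, hp⟩ : ∃ p : Fin m → ℝ, p = ∑ k, h k • rv (B k) := ⟨_, rfl⟩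
    have hpj : ∀ j, p j = ∑ k, h k * (B k j : ℝ) := by
      intro j
      rw [hp, Finset.sum_apply]
      rfl
    have hmem : p ∈ RS (rows B) := by
      rw [hp]
      refine Submodule.sum_mem _ fun k _ => Submodule.smul_mem _ _ (Submodule.subset_span ?_)
      exact ⟨B k, Submodule.subset_span ⟨k, rfl⟩, rfl⟩
    -- orthogonality to the rows
    have horth : ∀ k, ∑ j, (B k j : ℝ) * ((g j : ℝ) - p j) = 0 := by
      intro k
      by_cases hk : B k k = 0
      · refine Finset.sum_eq_zero fun j _ => ?_
        rw [hB.zero k hk j]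
        simp
      · have h1 : ∀ i, (GG B i k : ℝ) = ∑ j, (B i j : ℝ) * (B k j : ℝ) := by
          intro i
          have h2 : GG B i k = ∑ j, B i j * B k j := by
            rw [GG_apply]
            by_cases hik : i = k
            · subst hik
              simp [hk]
            · simp [hik]
          rw [h2]
          push_cast
          rfl
        have h3 := heq k
        simp only [h1] at h3
        have h4 : δ * ∑ j, (B k j : ℝ) * p j = δ * ∑ j, (B k j : ℝ) * (g j : ℝ) := by
          have h5 : ∑ j, (B k j : ℝ) * p j = ∑ i, h i * ∑ j, (B i j : ℝ) * (B k j : ℝ) := by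
            simp only [hpj, Finset.mul_sum]
            rw [Finset.sum_comm]
            refine Finset.sum_congr rfl fun i _ => Finset.sum_congr rfl fun j _ => by ring
          rw [h5, Finset.mul_sum]
          have h6 : ∀ i, δ * (h i * ∑ j, (B i j : ℝ) * (B k j : ℝ)) =
              -((y i : ℝ) * ∑ j, (B i j : ℝ) * (B k j : ℝ)) := by
            intro i
            rw [← mul_assoc, hh i]
            ring
          simp only [h6, Finset.sum_neg_distrib]
          rw [h3]
          ring
        have h7 := mul_left_cancel₀ hδ0 h4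
        simp only [mul_sub, Finset.sum_sub_distrib]
        rw [h7, sub_self]
    have horth' : ∀ w ∈ rows B, ∑ j, ((g j : ℝ) - p j) * (w j : ℝ) = 0 := by
      intro w hw
      unfold rows at hw
      induction hw using Submodule.span_induction with
      | mem x hx =>
        obtain ⟨k, rfl⟩ := hx
        rw [← horth k]
        exact Finset.sum_congr rfl fun j _ => by ring
      | zero => simp
      | add x y _ _ hx hy =>
        have : ∀ j, ((g j : ℝ) - p j) * (((x + y) j : ℤ) : ℝ) =
            ((g j : ℝ) - p j) * (x j : ℝ) + ((g j : ℝ) - p j) * (y j : ℝ) := by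
          intro j
          rw [Pi.add_apply]
          push_cast
          ring
        simp only [this, Finset.sum_add_distrib]
        rw [hx, hy, add_zero]
      | smul a x _ hx =>
        have : ∀ j, ((g j : ℝ) - p j) * (((a • x) j : ℤ) : ℝ) =
            (a : ℝ) * (((g j : ℝ) - p j) * (x j : ℝ)) := by
          intro j
          rw [Pi.smul_apply, smul_eq_mul]
          push_cast
          ring
        simp only [this, ← Finset.mul_sum]
        rw [hx, mul_zero]
    have hortho : ∀ q ∈ RS (rows B), (rv g - p) ⬝ᵥ q = 0 := by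
      intro q hq
      unfold RS at hq
      induction hq using Submodule.span_induction with
      | mem x hx =>
        obtain ⟨w, hw, rfl⟩ := hx
        exact horth' w hw
      | zero => simp
      | add x y _ _ hx hy => rw [dotProduct_add, hx, hy, add_zero]
      | smul a x _ hx => rw [dotProduct_smul, hx, smul_zero]
    refine ⟨p, hmem, hortho, ?_⟩
    have hval : sq (rv g - p) = ∑ j, (g j : ℝ) * (g j : ℝ) - ∑ k, h k * ∑ j, (B k j : ℝ) * (g j : ℝ) := by
      have h1 : sq (rv g - p) = (rv g - p) ⬝ᵥ rv g - (rv g - p) ⬝ᵥ p := by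
        unfold sq
        rw [← dotProduct_sub]
      rw [h1, hortho p hmem, sub_zero, sub_dotProduct]
      congr 1
      rw [dotProduct]
      simp only [hpj, Finset.mul_sum, Finset.sum_mul]
      rw [Finset.sum_comm]
      refine Finset.sum_congr rfl fun i _ => Finset.sum_congr rfl fun j _ => ?_
      unfold rv
      ring
    have h2 : δ * ∑ k, h k * ∑ j, (B k j : ℝ) * (g j : ℝ) =
        -∑ k, (y k : ℝ) * ∑ j, (B k j : ℝ) * (g j : ℝ) := by
      rw [Finset.mul_sum, ← Finset.sum_neg_distrib]
      refine Finset.sum_congr rfl fun k _ => ?_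
      rw [← mul_assoc, hh k]
      ring
    rw [hval, ← hδ, mul_sub, h2]
    have h3 : y ⬝ᵥ (B *ᵥ g) = ∑ k, y k * ∑ j, B k j * g j := rfl
    have h4 : g ⬝ᵥ g = ∑ j, g j * g j := rfl
    rw [h3, h4, hδ]
    push_cast
    ring

end Pool.Agent.LAT.H25
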